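import Mathlib

set_option autoImplicit false

open CategoryTheory CategoryTheory.Limits Topology Filter

namespace Pool.Agent.Results.MP_aa1d58_gt.FineTopology

/-- Euclidean `n`-space. -/
abbrev E (n : ℕ) : Type := EuclideanSpace ℝ (Fin n)

/-- The inclusion of a subspace, as a morphism of topological spaces. -/
def incl (X : Type) [TopologicalSpace X] (A : Set X) : TopCat.of A ⟶ TopCat.of X :=
  TopCat.ofHom ⟨Subtype.val, continuous_subtype_val⟩

/-- The integral singular chain complex. -/
noncomputable def singChain : TopCat.{0} ⥤ ChainComplex (ModuleCat.{0} ℤ) ℕ :=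
  (AlgebraicTopology.singularChainComplexFunctor (ModuleCat.{0} ℤ)).obj (ModuleCat.of ℤ ℤ)

/-- The relative singular homology `H_k(X, A; ℤ)`: homology of the quotient of the singular chain
complexes. -/
noncomputable def RelHomology (X : Type) [TopologicalSpace X] (A : Set X) (k : ℕ) :
    ModuleCat.{0} ℤ :=
  (cokernel (singChain.map (incl X A))).homology k

/-- Absolute neighbourhood retracts for metrizable spaces. -/
def IsANR (X : Type) [TopologicalSpace X] : Prop :=
  ∀ (Z : Type) [TopologicalSpace Z] [TopologicalSpace.MetrizableSpace Z] (j : X → Z),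
    IsClosedEmbedding j → ∃ (V : Set Z) (hV : Set.range j ⊆ V) (r : V → X), IsOpen V ∧
      Continuous r ∧ ∀ x, r ⟨j x, hV ⟨x, rfl⟩⟩ = x

/-- ANR homology `n`-manifolds. -/
structure IsANRHomologyManifold (n : ℕ) (X : Type) [MetricSpace X] : Prop where
  locallyCompact : LocallyCompactSpace X
  finiteDimensional : ∃ d : ℕ, smallInductiveDimension X ≤ d
  separable : TopologicalSpace.SeparableSpace X
  anr : IsANR X
  localHomology : ∀ (x : X) (k : ℕ),
    Nonempty (RelHomology X {x}ᶜ k ≅ RelHomology (E n) {0}ᶜ k)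

/-- The closed unit disk in the plane. -/
abbrev Disk : Type := Metric.closedBall (0 : E 2) 1

/-- The disjoint disk property. -/
def DDP (X : Type) [MetricSpace X] : Prop :=
  ∀ ε : ℝ, 0 < ε → ∀ f g : C(Disk, X), ∃ f' g' : C(Disk, X),
    (∀ x, dist (f x) (f' x) < ε) ∧ (∀ x, dist (g x) (g' x) < ε) ∧
    Disjoint (Set.range f') (Set.range g')

/-- Self-homeomorphisms of `X`, to be given the fine topology. -/
@[ext]
structure FineHomeo (X : Type) [TopologicalSpace X] where
  toHomeo : X ≃ₜ X

/-- The identity. -/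
def idHomeo (X : Type) [TopologicalSpace X] : FineHomeo X := ⟨Homeomorph.refl X⟩

/-- The basic neighbourhood of `h` given by a function `ε`. -/
def nbd {X : Type} [MetricSpace X] (h : FineHomeo X) (ε : X → ℝ) : Set (FineHomeo X) :=
  {g | ∀ x, dist (g.toHomeo x) (h.toHomeo x) < ε x}

/-- The fine (majorant) topology on the group of homeomorphisms. -/
instance fineTopology (X : Type) [MetricSpace X] : TopologicalSpace (FineHomeo X) where
  IsOpen U := ∀ h ∈ U, ∃ ε : X → ℝ, Continuous ε ∧ (∀ x, 0 < ε x) ∧ nbd h ε ⊆ U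
  isOpen_univ h _ := ⟨fun _ => 1, continuous_const, fun _ => one_pos, fun _ _ => trivial⟩
  isOpen_inter U V hU hV h hh := by
    obtain ⟨ε, hε, hp, hs⟩ := hU h hh.1
    obtain ⟨ε', hε', hp', hs'⟩ := hV h hh.2
    refine ⟨fun x => min (ε x) (ε' x), hε.min hε', fun x => lt_min (hp x) (hp' x),
      fun g hg => ⟨hs fun x => ?_, hs' fun x => ?_⟩⟩
    · exact (hg x).trans_le (min_le_left _ _)
    · exact (hg x).trans_le (min_le_right _ _)
  isOpen_sUnion S hS h hh := by
    obtain ⟨U, hU, hhU⟩ := hh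
    obtain ⟨ε, hε, hp, hs⟩ := hS U hU h hhU
    exact ⟨ε, hε, hp, fun g hg => ⟨U, hU, hs hg⟩⟩

/-- Local contractibility of the homeomorphism group with the fine topology at the identity. -/
def HomeoLocallyContractible (X : Type) [MetricSpace X] : Prop :=
  ∃ (U : Set (FineHomeo X)) (hU : U ∈ 𝓝 (idHomeo X))
    (H : U × unitInterval → FineHomeo X), Continuous H ∧
    (∀ h : U, H (h, 0) = h) ∧ (∀ h : U, H (h, 1) = idHomeo X) ∧
    ∀ t, H (⟨idHomeo X, mem_of_mem_nhds hU⟩, t) = idHomeo X

/-! ### The fine topology -/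

theorem nbd_mem_nhds {X : Type} [MetricSpace X] (h : FineHomeo X) {ε : X → ℝ} (hε : Continuous ε)
    (hp : ∀ x, 0 < ε x) : nbd h ε ∈ 𝓝 h := by
  refine IsOpen.mem_nhds ?_ ?_
  · intro g hg
    refine ⟨fun x => ε x - dist (g.toHomeo x) (h.toHomeo x), ?_, fun x => sub_pos.2 (hg x), ?_⟩
    · exact hε.sub (g.toHomeo.continuous.dist h.toHomeo.continuous)
    · intro f hf x
      have h1 := hf x
      have h2 := dist_triangle (f.toHomeo x) (g.toHomeo x) (h.toHomeo x)
      linarith
  · intro x
    rw [dist_self]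
    exact hp x

theorem exists_nbd_subset {X : Type} [MetricSpace X] (h : FineHomeo X) {U : Set (FineHomeo X)}
    (hU : U ∈ 𝓝 h) : ∃ ε : X → ℝ, Continuous ε ∧ (∀ x, 0 < ε x) ∧ nbd h ε ⊆ U := by
  obtain ⟨V, hVU, hV, hh⟩ := mem_nhds_iff.1 hU
  obtain ⟨ε, h1, h2, h3⟩ := hV h hh
  exact ⟨ε, h1, h2, h3.trans hVU⟩

/-- A path in the fine topology moves only finitely many points of a closed discrete sequence. -/
theorem path_finite {X : Type} [MetricSpace X] (x : ℕ → X)
    (hx : ∀ c : ℕ → ℝ, (∀ n, 0 < c n) → ∃ ε : X → ℝ, Continuous ε ∧ (∀ y, 0 < ε y) ∧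
      ∀ n, ε (x n) ≤ c n)
    (f : unitInterval → FineHomeo X) (hf : Continuous f) (s t : unitInterval) :
    {n | (f s).toHomeo (x n) ≠ (f t).toHomeo (x n)}.Finite := by
  have key : ∀ s : unitInterval, ∀ᶠ t in 𝓝 s,
      {n | (f s).toHomeo (x n) ≠ (f t).toHomeo (x n)}.Finite := by
    intro s
    by_contra hcon
    rw [not_eventually] at hcon
    obtain ⟨u, hu, hinf⟩ := exists_seq_forall_of_frequently hcon
    have hm : ∀ k, ∃ m, k ≤ m ∧ (f s).toHomeo (x m) ≠ (f (u k)).toHomeo (x m) := by
      intro k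
      obtain ⟨m, hm, hkm⟩ := (Set.Infinite.exists_gt (hinf k) k)
      exact ⟨m, hkm.le, hm⟩
    choose m hkm hm using hm
    let d : ℕ → ℝ := fun k => dist ((f (u k)).toHomeo (x (m k))) ((f s).toHomeo (x (m k)))
    have hd : ∀ k, 0 < d k := fun k => dist_pos.2 (hm k).symm
    let c : ℕ → ℝ := fun n => (Finset.range (n + 1)).inf' ⟨0, by simp⟩
      (fun k => if m k = n then d k else 1)
    have hc : ∀ n, 0 < c n := by
      intro n
      refine (Finset.lt_inf'_iff _).2 ?_
      intro k _
      split_ifs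
      · exact hd k
      · exact one_pos
    have hcm : ∀ k, c (m k) ≤ d k := by
      intro k
      refine (Finset.inf'_le (s := Finset.range (m k + 1))
        (fun j => if m j = m k then d j else 1)
        (Finset.mem_range.2 (Nat.lt_succ_of_le (hkm k)))).trans (le_of_eq ?_)
      exact if_pos rfl
    obtain ⟨ε, hε, hp, hle⟩ := hx c hc
    have hev := (hf.tendsto s).eventually (nbd_mem_nhds (f s) hε hp)
    obtain ⟨k, hk⟩ := (hu.eventually hev).exists
    have h1 : d k < ε (x (m k)) := hk (x (m k))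
    exact absurd h1 (not_lt.2 ((hle _).trans (hcm k)))
  have hsymm : ∀ a b, {n | (f a).toHomeo (x n) ≠ (f b).toHomeo (x n)}.Finite →
      {n | (f b).toHomeo (x n) ≠ (f a).toHomeo (x n)}.Finite := fun a b hab =>
    hab.subset fun n hn h => hn h.symm
  refine PreconnectedSpace.induction₂'
    (fun s t => {n | (f s).toHomeo (x n) ≠ (f t).toHomeo (x n)}.Finite)
    (fun z => (key z).mono fun t ht => ⟨ht, hsymm _ _ ht⟩) ?_ s t
  refine ⟨fun a b c hab hbc => (hab.union hbc).subset fun n hn => ?_⟩
  by_contra hcon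
  rw [Set.mem_union, not_or] at hcon
  exact hn ((not_not.1 hcon.1).trans (not_not.1 hcon.2))

/-- Criterion for failure of local contractibility. -/
theorem not_locallyContractible {X : Type} [MetricSpace X] (x : ℕ → X)
    (hx : ∀ c : ℕ → ℝ, (∀ n, 0 < c n) → ∃ ε : X → ℝ, Continuous ε ∧ (∀ y, 0 < ε y) ∧
      ∀ n, ε (x n) ≤ c n)
    (hmove : ∀ ε : X → ℝ, Continuous ε → (∀ y, 0 < ε y) → ∃ h : X ≃ₜ X,
      (∀ y, dist (h y) y < ε y) ∧ ∀ n, h (x n) ≠ x n) :
    ¬ HomeoLocallyContractible X := by
  rintro ⟨U, hU, H, hH, h0, h1, -⟩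
  obtain ⟨ε, hε, hp, hsub⟩ := exists_nbd_subset _ hU
  obtain ⟨h, hh, hne⟩ := hmove ε hε hp
  have hhU : (⟨h⟩ : FineHomeo X) ∈ U := hsub hh
  let f : unitInterval → FineHomeo X := fun t => H (⟨⟨h⟩, hhU⟩, t)
  have hf : Continuous f := hH.comp (Continuous.prodMk_right (⟨⟨h⟩, hhU⟩ : U))
  have hfin := path_finite x hx f hf 0 1
  have e0 : f 0 = ⟨h⟩ := h0 ⟨⟨h⟩, hhU⟩
  have e1 : f 1 = idHomeo X := h1 ⟨⟨h⟩, hhU⟩
  rw [e0, e1] at hfin
  refine Set.infinite_univ (α := ℕ) (hfin.subset fun n _ => ?_)
  exact hne n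

/-- A positive Lipschitz function below a positive continuous function. -/
theorem exists_lipschitz_below {X : Type} [MetricSpace X] [Nonempty X] (ε : X → ℝ)
    (hε : Continuous ε) (hp : ∀ y, 0 < ε y) :
    ∃ η : X → ℝ, LipschitzWith (1 / 2) η ∧ ∀ y, 0 < η y ∧ η y < ε y := by
  let C : Set (X × ℝ) := {p | ε p.1 ≤ p.2}
  have hC : IsClosed C := isClosed_le (hε.comp continuous_fst) continuous_snd
  have hne : C.Nonempty :=
    ⟨(Classical.arbitrary X, ε (Classical.arbitrary X)), le_refl (ε (Classical.arbitrary X))⟩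
  let ρ : X → ℝ := fun y => Metric.infDist (y, (0 : ℝ)) C
  have h1 : ∀ y z, ρ y ≤ ρ z + dist y z := by
    intro y z
    refine (Metric.infDist_le_infDist_add_dist (s := C) (x := (y, (0 : ℝ))) (y := (z, 0))).trans
      (le_of_eq ?_)
    rw [Prod.dist_eq]
    simp [ρ]
  refine ⟨fun y => ρ y / 2, ?_, fun y => ⟨?_, ?_⟩⟩
  · refine LipschitzWith.of_dist_le_mul fun y z => ?_
    rw [Real.dist_eq]
    have h2 := h1 y z
    have h3 := h1 z y
    rw [dist_comm] at h3
    have : ((1 / 2 : NNReal) : ℝ) = 1 / 2 := by norm_num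
    rw [this, abs_le]
    constructor <;> linarith
  · have : 0 < ρ y := by
      rw [← hC.notMem_iff_infDist_pos hne]
      intro hmem
      exact absurd (hp y) (not_lt.2 hmem)
    exact half_pos this
  · have : ρ y ≤ ε y := by
      refine (Metric.infDist_le_dist_of_mem (show (y, ε y) ∈ C from le_refl (ε y))).trans
        (le_of_eq ?_)
      rw [Prod.dist_eq]
      simp [abs_of_pos (hp y), (hp y).le]
    have h4 := hp y
    change ρ y / 2 < ε y
    linarith

/-- Small homeomorphisms of Euclidean space moving every point. -/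
theorem exists_moving (n : ℕ) (hn : 0 < n) (ε : E n → ℝ) (hε : Continuous ε)
    (hp : ∀ y, 0 < ε y) : ∃ h : E n ≃ₜ E n, (∀ y, dist (h y) y < ε y) ∧ ∀ y, h y ≠ y := by
  obtain ⟨η, hη, hη'⟩ := exists_lipschitz_below ε hε hp
  let e : E n := EuclideanSpace.single ⟨0, hn⟩ 1
  have he : ‖e‖ = 1 := by simp [e]
  let F : E n → E n := fun y => y + η y • e
  have happ : ApproximatesLinearOn F
      ((ContinuousLinearEquiv.refl ℝ (E n) : E n ≃L[ℝ] E n) : E n →L[ℝ] E n) Set.univ (1 / 2) := by
    intro y _ z _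
    have : F y - F z - ((ContinuousLinearEquiv.refl ℝ (E n) : E n ≃L[ℝ] E n) : E n →L[ℝ] E n)
        (y - z) = (η y - η z) • e := by
      simp only [F, ContinuousLinearEquiv.coe_coe, ContinuousLinearEquiv.refl_apply, sub_smul]
      abel
    rw [this, norm_smul, he, mul_one, Real.norm_eq_abs, ← Real.dist_eq, ← dist_eq_norm]
    exact hη.dist_le_mul y z
  have hnt : Nontrivial (E n) := ⟨⟨e, 0, fun h => by rw [h, norm_zero] at he; exact zero_ne_one he⟩⟩
  have hc : Subsingleton (E n) ∨ (1 / 2 : NNReal) <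
      ‖((ContinuousLinearEquiv.refl ℝ (E n)).symm : E n →L[ℝ] E n)‖₊⁻¹ := by
    right
    have h1 : ‖((ContinuousLinearEquiv.refl ℝ (E n)).symm : E n →L[ℝ] E n)‖₊ = 1 := by
      have : ((ContinuousLinearEquiv.refl ℝ (E n)).symm : E n →L[ℝ] E n) =
          ContinuousLinearMap.id ℝ (E n) := rfl
      rw [this]
      exact NNReal.eq (by simp)
    rw [h1, inv_one]
    exact NNReal.coe_lt_coe.1 (by norm_num)
  let h := happ.toHomeomorph F hc
  have hh : ∀ y, h y = y + η y • e := fun y => rfl
  refine ⟨h, fun y => ?_, fun y hy => ?_⟩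
  · rw [hh, dist_eq_norm, add_sub_cancel_left, norm_smul, he, mul_one, Real.norm_eq_abs,
      abs_of_pos (hη' y).1]
    exact (hη' y).2
  · rw [hh] at hy
    have h1 : η y • e = 0 := by simpa using hy
    have h2 : ‖η y • e‖ = 0 := by rw [h1, norm_zero]
    rw [norm_smul, he, mul_one, Real.norm_eq_abs, abs_of_pos (hη' y).1] at h2
    exact absurd (hη' y).1 (by rw [h2]; exact lt_irrefl 0)

theorem euclid_not_locallyContractible (n : ℕ) (hn : 0 < n) :
    ¬ HomeoLocallyContractible (E n) := by
  let e : E n := EuclideanSpace.single ⟨0, hn⟩ 1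
  have he : ‖e‖ = 1 := by simp [e]
  let x : ℕ → E n := fun k => (k : ℝ) • e
  have hx : Isometry x := by
    refine Isometry.of_dist_eq fun j k => ?_
    rw [dist_eq_norm]
    change ‖(j : ℝ) • e - (k : ℝ) • e‖ = dist j k
    rw [← sub_smul, norm_smul, he, mul_one, Real.norm_eq_abs, Nat.dist_eq]
  refine not_locallyContractible x ?_ ?_
  · intro c hc
    obtain ⟨G, hG⟩ := ContinuousMap.exists_extension hx.isClosedEmbedding
      (⟨fun k => Real.log (c k), continuous_of_discreteTopology⟩ : C(ℕ, ℝ))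
    refine ⟨fun y => Real.exp (G y), Real.continuous_exp.comp G.continuous,
      fun y => Real.exp_pos _, fun k => ?_⟩
    have h1 : G (x k) = Real.log (c k) := DFunLike.congr_fun hG k
    change Real.exp (G (x k)) ≤ c k
    rw [h1, Real.exp_log (hc k)]
  · intro ε hε hp
    obtain ⟨h, h1, h2⟩ := exists_moving n hn ε hε hp
    exact ⟨h, h1, fun k => h2 _⟩

/-! ### Euclidean spaces are ANR homology manifolds with the disjoint disk property -/

theorem euclid_anr (n : ℕ) : IsANR (E n) := by
  intro Z _ _ j hj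
  let _ := TopologicalSpace.metrizableSpaceMetric Z
  obtain ⟨G, hG⟩ := ContinuousMap.exists_extension hj (ContinuousMap.id (E n))
  refine ⟨Set.univ, Set.subset_univ _, fun z => G z, isOpen_univ,
    G.continuous.comp continuous_subtype_val, fun x => ?_⟩
  exact DFunLike.congr_fun hG x

/-- Spaces embedded in round spheres have finite dimension. -/
theorem dim_sphere {V : Type} [NormedAddCommGroup V] [InnerProductSpace ℝ V]
    [FiniteDimensional ℝ V] (m : ℕ) : ∀ (W : Submodule ℝ V) (c : V) (r : ℝ), 0 < r →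
      Module.finrank ℝ W = m → ∀ (X : Type) [TopologicalSpace X] (f : X → V), IsEmbedding f →
      (∀ x, f x - c ∈ W ∧ ‖f x - c‖ = r) → HasSmallInductiveDimensionLT X m := by
  induction m with
  | zero =>
    intro W c r hr hW X _ f hf hfx
    have : IsEmpty X := by
      refine ⟨fun x => ?_⟩
      have h1 : W = ⊥ := Submodule.finrank_eq_zero.1 hW
      have h2 := (hfx x).1
      rw [h1, Submodule.mem_bot] at h2
      have h3 := (hfx x).2
      rw [h2, norm_zero] at h3
      exact absurd hr (by rw [← h3]; exact lt_irrefl 0)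
    exact .zero
  | succ m ih =>
    intro W c r hr hW X _ f hf hfx
    refine .succ m {U | ∃ (p : X) (ε : ℝ), 0 < ε ∧ ε < r ∧ U = f ⁻¹' Metric.ball (f p) ε} ?_ ?_
    · refine TopologicalSpace.isTopologicalBasis_of_isOpen_of_nhds ?_ ?_
      · rintro _ ⟨p, ε, _, _, rfl⟩
        exact Metric.isOpen_ball.preimage hf.continuous
      · intro p U hpU hU
        obtain ⟨V', hV', rfl⟩ := hf.isInducing.isOpen_iff.1 hU
        obtain ⟨ε, hε, hsub⟩ := Metric.isOpen_iff.1 hV' (f p) hpU
        refine ⟨f ⁻¹' Metric.ball (f p) (min ε (r / 2)), ⟨p, min ε (r / 2), ?_, ?_, rfl⟩, ?_, ?_⟩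
        · exact lt_min hε (half_pos hr)
        · exact (min_le_right _ _).trans_lt (half_lt_self hr)
        · exact Metric.mem_ball_self (lt_min hε (half_pos hr))
        · exact Set.preimage_mono ((Metric.ball_subset_ball (min_le_left _ _)).trans hsub)
    · rintro _ ⟨p, ε, hε, hεr, rfl⟩
      have hsub : ∀ y ∈ frontier (f ⁻¹' Metric.ball (f p) ε), dist (f y) (f p) = ε := by
        intro y hy
        have h1 := hf.continuous.frontier_preimage_subset _ hy
        exact Metric.frontier_ball_subset_sphere h1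
      set u : V := f p - c with hu
      have hur : ‖u‖ = r := (hfx p).2
      have huW : u ∈ W := (hfx p).1
      set t : ℝ := 1 - ε ^ 2 / (2 * r ^ 2) with ht
      have hr2 : 0 < r ^ 2 := by positivity
      have ht1 : t < 1 := by
        have : 0 < ε ^ 2 / (2 * r ^ 2) := by positivity
        linarith
      have ht0 : 0 < t := by
        have h1 : ε ^ 2 < r ^ 2 := by nlinarith
        have : ε ^ 2 / (2 * r ^ 2) < 1 := by
          rw [div_lt_one (by positivity)]
          linarith
        linarith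
      have ht2 : 0 < 1 - t ^ 2 := by nlinarith
      let W' : Submodule ℝ V := W ⊓ (ℝ ∙ u)ᗮ
      have hW' : Module.finrank ℝ W' = m := by
        have hne : u ≠ 0 := by
          intro h
          rw [h, norm_zero] at hur
          exact absurd hr (by rw [← hur]; exact lt_irrefl 0)
        have h1 : (ℝ ∙ u) ≤ W := by
          rw [Submodule.span_singleton_le_iff_mem]; exact huW
        have h2 := Submodule.finrank_add_inf_finrank_orthogonal h1
        rw [finrank_span_singleton hne, hW] at h2
        have h3 : (ℝ ∙ u)ᗮ ⊓ W = W' := inf_comm _ _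
        rw [h3] at h2
        omega
      refine ih W' (c + t • u) (r * Real.sqrt (1 - t ^ 2)) (by positivity) hW' _
        (fun y : frontier (f ⁻¹' Metric.ball (f p) ε) => f y)
        (hf.comp IsEmbedding.subtypeVal) ?_
      intro y
      have hy := hsub y y.2
      set v : V := f y - c with hv
      have hvr : ‖v‖ = r := (hfx y).2
      have hvW : v ∈ W := (hfx y).1
      have hdist : ‖v - u‖ = ε := by
        have h0 : v - u = f y - f p := by rw [hv, hu]; abel
        rw [h0, ← dist_eq_norm]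
        exact hy
      have hinner : inner ℝ u v = t * r ^ 2 := by
        have h1 := norm_sub_sq_real v u
        rw [hdist, hvr, hur, real_inner_comm] at h1
        have h2 : t * r ^ 2 = r ^ 2 - ε ^ 2 / 2 := by
          rw [ht]; field_simp
        rw [h2]
        linarith
      have hz : f y - (c + t • u) = v - t • u := by rw [hv]; abel
      rw [hz]
      refine ⟨⟨W.sub_mem hvW (W.smul_mem _ huW), ?_⟩, ?_⟩
      · change v - t • u ∈ (ℝ ∙ u)ᗮ
        rw [Submodule.mem_orthogonal_singleton_iff_inner_right, inner_sub_right, inner_smul_right,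
          hinner, real_inner_self_eq_norm_sq, hur]
        ring
      · have h1 : ‖v - t • u‖ ^ 2 = (r * Real.sqrt (1 - t ^ 2)) ^ 2 := by
          rw [norm_sub_sq_real, inner_smul_right, real_inner_comm, hinner, norm_smul, hvr, hur,
            mul_pow, mul_pow, Real.sq_sqrt ht2.le, Real.norm_eq_abs, sq_abs]
          ring
        exact (pow_left_inj₀ (norm_nonneg _) (by positivity) two_ne_zero).1 h1

theorem euclid_dim (n : ℕ) : smallInductiveDimension (E n) ≤ n := by
  rw [smallInductiveDimension_le_iff]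
  refine .succ n {U | ∃ (p : E n) (ε : ℝ), 0 < ε ∧ U = Metric.ball p ε} ?_ ?_
  · refine TopologicalSpace.isTopologicalBasis_of_isOpen_of_nhds ?_ ?_
    · rintro _ ⟨p, ε, _, rfl⟩
      exact Metric.isOpen_ball
    · intro p U hpU hU
      obtain ⟨ε, hε, hsub⟩ := Metric.isOpen_iff.1 hU p hpU
      exact ⟨_, ⟨p, ε, hε, rfl⟩, Metric.mem_ball_self hε, hsub⟩
  · rintro _ ⟨p, ε, hε, rfl⟩
    refine dim_sphere n ⊤ p ε hε (by simp) _ (fun y : frontier (Metric.ball p ε) => (y : E n))
      IsEmbedding.subtypeVal fun y => ⟨trivial, ?_⟩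
    have h1 := Metric.frontier_ball_subset_sphere y.2
    rw [← dist_eq_norm]
    exact h1

/-- Relative homology is invariant under homeomorphisms of pairs. -/
theorem relHomology_iso {X Y : Type} [TopologicalSpace X] [TopologicalSpace Y] (e : X ≃ₜ Y)
    (A : Set X) (B : Set Y) (h : ∀ x, x ∈ A ↔ e x ∈ B) (k : ℕ) :
    Nonempty (RelHomology X A k ≅ RelHomology Y B k) := by
  let e' : A ≃ₜ B := e.subtype h
  let p : TopCat.of A ≅ TopCat.of B := TopCat.isoOfHomeo e'
  let q : TopCat.of X ≅ TopCat.of Y := TopCat.isoOfHomeo e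
  have w : incl X A ≫ q.hom = p.hom ≫ incl Y B := rfl
  have w' : singChain.map (incl X A) ≫ (singChain.mapIso q).hom =
      (singChain.mapIso p).hom ≫ singChain.map (incl Y B) := by
    rw [Functor.mapIso_hom, Functor.mapIso_hom, ← Functor.map_comp, ← Functor.map_comp, w]
  exact ⟨(HomologicalComplex.homologyFunctor _ _ k).mapIso
    (cokernel.mapIso _ _ (singChain.mapIso p) (singChain.mapIso q) w')⟩

/-- Smooth approximation on the disk. -/
theorem exists_smooth_near (g : C(Disk, ℝ)) (ε : ℝ) (hε : 0 < ε) :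
    ∃ G : E 2 → ℝ, ContDiff ℝ 1 G ∧ ∀ x : Disk, |G x - g x| < ε := by
  let A : Subalgebra ℝ C(Disk, ℝ) :=
    { carrier := {g | ∃ G : E 2 → ℝ, ContDiff ℝ 1 G ∧ ∀ x : Disk, g x = G x}
      mul_mem' := by
        rintro a b ⟨G, hG, h1⟩ ⟨G', hG', h2⟩
        exact ⟨fun x => G x * G' x, hG.mul hG', fun x => by simp [h1, h2]⟩
      add_mem' := by
        rintro a b ⟨G, hG, h1⟩ ⟨G', hG', h2⟩
        exact ⟨fun x => G x + G' x, hG.add hG', fun x => by simp [h1, h2]⟩
      algebraMap_mem' := fun r => ⟨fun _ => r, contDiff_const, fun x => by simp⟩ }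
  have hA : A.SeparatesPoints := by
    intro x y hxy
    have hne : (x : E 2) ≠ y := fun h => hxy (Subtype.ext h)
    obtain ⟨i, hi⟩ : ∃ i, (x : E 2) i ≠ (y : E 2) i := by
      by_contra hcon
      push Not at hcon
      exact hne (by ext i; exact hcon i)
    have hsm : ContDiff ℝ 1 fun z : E 2 => z i := by fun_prop
    refine ⟨_, ⟨⟨fun z : Disk => (z : E 2) i, hsm.continuous.comp continuous_subtype_val⟩,
      ⟨fun z => z i, hsm, fun z => rfl⟩, rfl⟩, hi⟩
  obtain ⟨⟨a, G, hG, haG⟩, ha⟩ :=
    ContinuousMap.exists_mem_subalgebra_near_continuous_of_separatesPoints A hA g g.continuous ε hε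
  refine ⟨G, hG, fun x => ?_⟩
  have := ha x
  rw [Real.norm_eq_abs] at this
  rw [← haG x]
  exact this

theorem exists_smooth_near' (n : ℕ) (f : C(Disk, E n)) (ε : ℝ) (hε : 0 < ε) :
    ∃ F : E 2 → E n, ContDiff ℝ 1 F ∧ ∀ x : Disk, dist (f x) (F x) < ε := by
  have hpos : 0 < ε / (n + 1) := by positivity
  have hc : ∀ i : Fin n, Continuous fun x : Disk => f x i := fun i => by fun_prop
  choose G hG hG' using fun i : Fin n =>
    exists_smooth_near ⟨fun x => f x i, hc i⟩ (ε / (n + 1)) hpos
  refine ⟨fun x => WithLp.toLp 2 fun i => G i x, ?_, fun x => ?_⟩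
  · exact contDiff_euclidean.2 fun i => hG i
  · rw [EuclideanSpace.dist_eq]
    have h1 : ∀ i ∈ Finset.univ, dist (f x i) ((WithLp.toLp 2 fun i => G i x : E n) i) ^ 2 ≤
        (ε / (n + 1)) ^ 2 := by
      intro i _
      refine pow_le_pow_left₀ dist_nonneg ?_ 2
      rw [dist_comm, Real.dist_eq]
      exact (hG' i x).le
    have h2 := Finset.sum_le_sum h1
    rw [Finset.sum_const, Finset.card_univ, Fintype.card_fin, nsmul_eq_mul] at h2
    rw [Real.sqrt_lt' hε]
    refine h2.trans_lt ?_
    have h3 : (n : ℝ) * (ε / (n + 1)) ^ 2 = ε ^ 2 * (n / (n + 1) ^ 2) := by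
      field_simp
    rw [h3]
    have h4 : (n : ℝ) / (n + 1) ^ 2 < 1 := by
      rw [div_lt_one (by positivity)]
      nlinarith [Nat.cast_nonneg (α := ℝ) n]
    have h5 : 0 < ε ^ 2 := by positivity
    nlinarith

theorem euclid_ddp (n : ℕ) (hn : 5 ≤ n) : DDP (E n) := by
  intro ε hε f g
  obtain ⟨F, hF, hF'⟩ := exists_smooth_near' n f (ε / 2) (half_pos hε)
  obtain ⟨G, hG, hG'⟩ := exists_smooth_near' n g (ε / 2) (half_pos hε)
  let Φ : E 2 × E 2 → E n := fun p => F p.1 - G p.2
  have hΦ : ContDiff ℝ 1 Φ := (hF.comp contDiff_fst).sub (hG.comp contDiff_snd)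
  have hdense := hΦ.dense_compl_range_of_finrank_lt_finrank (by
    rw [Module.finrank_prod, finrank_euclideanSpace_fin, finrank_euclideanSpace_fin]
    omega)
  obtain ⟨v, hv, hvd⟩ := hdense.exists_dist_lt 0 (half_pos hε)
  rw [dist_comm, dist_zero_right] at hvd
  refine ⟨⟨fun x => F x, hF.continuous.comp continuous_subtype_val⟩,
    ⟨fun x => G x + v, (hG.continuous.comp continuous_subtype_val).add continuous_const⟩,
    fun x => (hF' x).trans (half_lt_self hε), fun x => ?_, ?_⟩
  · have h1 := hG' x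
    have h2 : dist (G x) (G x + v) = ‖v‖ := by
      rw [dist_eq_norm, sub_add_cancel_left, norm_neg]
    have h3 := dist_triangle (g x) (G x) (G x + v)
    change dist (g x) (G x + v) < ε
    linarith
  · rw [Set.disjoint_left]
    rintro _ ⟨x, rfl⟩ ⟨y, hy⟩
    refine hv ⟨((x : E 2), (y : E 2)), ?_⟩
    have h1 : G y + v = F x := hy
    change F x - G y = v
    rw [← h1]
    abel

theorem euclid_homologyManifold (n : ℕ) : IsANRHomologyManifold n (E n) where
  locallyCompact := inferInstance
  finiteDimensional := ⟨n, euclid_dim n⟩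
  separable := inferInstance
  anr := euclid_anr n
  localHomology := by
    intro x k
    refine relHomology_iso (Homeomorph.subRight x) _ _ (fun y => ?_) k
    simp [sub_eq_zero]

/-- In every dimension `n ≥ 5` there is an ANR homology `n`-manifold with the disjoint disk
property whose homeomorphism group, with the fine topology, is not locally contractible at the
identity. -/
theorem result (n : ℕ) (hn : 5 ≤ n) : ∃ (X : Type) (_ : MetricSpace X),
    IsANRHomologyManifold n X ∧ DDP X ∧ ¬ HomeoLocallyContractible X :=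
  ⟨E n, inferInstance, euclid_homologyManifold n, euclid_ddp n hn,
    euclid_not_locallyContractible n (by omega)⟩

end Pool.Agent.Results.MP_aa1d58_gt.FineTopology
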